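import Mathlib

/-!
# `ℵ₁ ≤ add(Split(Ω,Λ)) ≤ cf(𝔲) ≤ 𝔲 ≤ 𝔠`

`Split(Ω,Λ)` has the following combinatorial form (`Spl`): for all open sets `O n`, `n ∈ ℕ`, such
that each finite subset of `X` is contained in infinitely many `O n` there is `A ⊆ ℕ` which splits
all the sets `a x = {n | x ∈ O n}`, `x ∈ X`. If there is no such `A`, then the sets `a x` generate
(modulo finite sets) a nonprincipal ultrafilter, which has a base of cardinality `#X`; hence each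
set of reals of cardinality less than `𝔲` has the property. On the other hand, a base `B` of
cardinality `𝔲` of a nonprincipal ultrafilter, placed in the Cantor set `2 ^ ω ⊆ ℝ`, does not have
the property, because of the sets `O n = {b | n ∈ b}`. As `B` is the union of `cf(𝔲)` subsets of
smaller cardinalities, `add(Split(Ω,Λ)) ≤ cf(𝔲)`.
-/

set_option autoImplicit false

namespace Pool.Agent.Results.MP_312f56_gt.AddAtMostCofU

open Cardinal Set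

/-- `𝒰` is an open cover of the set of reals `X` (with the subspace topology): its members are
relatively open subsets of `X`, their union is `X`, and `X` is not a member. -/
def IsOpenCover (X : Set ℝ) (𝒰 : Set (Set ℝ)) : Prop :=
  (∀ U ∈ 𝒰, ∃ O : Set ℝ, IsOpen O ∧ U = O ∩ X) ∧ ⋃₀ 𝒰 = X ∧ X ∉ 𝒰

/-- `𝒰 ∈ Λ(X)`: an open cover such that each point is in infinitely many members. -/
def IsLargeCover (X : Set ℝ) (𝒰 : Set (Set ℝ)) : Prop :=
  IsOpenCover X 𝒰 ∧ ∀ x ∈ X, {U | U ∈ 𝒰 ∧ x ∈ U}.Infinite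

/-- `𝒰 ∈ Ω(X)`: an open cover such that each finite subset of `X` is contained in a member. -/
def IsOmegaCover (X : Set ℝ) (𝒰 : Set (Set ℝ)) : Prop :=
  IsOpenCover X 𝒰 ∧ ∀ F : Set ℝ, F.Finite → F ⊆ X → ∃ U ∈ 𝒰, F ⊆ U

/-- `X` satisfies `Split(Ω,Λ)`. -/
def Split (X : Set ℝ) : Prop :=
  ∀ 𝒰 : Set (Set ℝ), IsOmegaCover X 𝒰 → ∃ 𝒱 𝒲 : Set (Set ℝ), 𝒱 ∪ 𝒲 = 𝒰 ∧ Disjoint 𝒱 𝒲 ∧
    (∃ 𝒱' ⊆ 𝒱, IsLargeCover X 𝒱') ∧ ∃ 𝒲' ⊆ 𝒲, IsLargeCover X 𝒲'

/-- The additivity number of `Split(Ω,Λ)`. -/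
noncomputable def addSplit : Cardinal.{0} :=
  sInf {κ | ∃ F : Set (Set ℝ), #F = κ ∧ (∀ X ∈ F, Split X) ∧ ¬ Split (⋃₀ F)}

/-- `B` is a base of the ultrafilter `U` on `ℕ`. -/
def IsBase (U : Ultrafilter ℕ) (B : Set (Set ℕ)) : Prop :=
  (∀ b ∈ B, b ∈ U) ∧ ∀ A ∈ U, ∃ b ∈ B, b ⊆ A

/-- The ultrafilter number `𝔲`: the least cardinality of a base of a nonprincipal ultrafilter
on `ℕ`. -/
noncomputable def ultraNumber : Cardinal.{0} :=
  sInf {κ | ∃ (U : Ultrafilter ℕ) (B : Set (Set ℕ)), (∀ n : ℕ, {n} ∉ U) ∧ IsBase U B ∧ #B = κ}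

/-! ### Combinatorial form of the splitting property -/

/-- The combinatorial form of `Split(Ω,Λ)`. -/
def Spl (X : Set ℝ) : Prop :=
  ∀ O : ℕ → Set ℝ, (∀ n, IsOpen (O n)) →
    (∀ F : Set ℝ, F.Finite → F ⊆ X → {n | F ⊆ O n}.Infinite) →
    ∃ A : Set ℕ, ∀ x ∈ X, {n | n ∈ A ∧ x ∈ O n}.Infinite ∧ {n | n ∉ A ∧ x ∈ O n}.Infinite

/-- An infinite set of natural numbers can be split in two infinite parts. -/
theorem exists_split {S : Set ℕ} (hS : S.Infinite) :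
    ∃ A : Set ℕ, {n | n ∈ A ∧ n ∈ S}.Infinite ∧ {n | n ∉ A ∧ n ∈ S}.Infinite := by
  let f : ℕ → ℕ := fun n => (hS.natEmbedding S n : ℕ)
  have hf : Function.Injective f := fun a b h =>
    (hS.natEmbedding S).injective (Subtype.ext h)
  have hfS : ∀ n, f n ∈ S := fun n => (hS.natEmbedding S n).2
  refine ⟨range fun k => f (2 * k), ?_, ?_⟩
  · refine (infinite_range_of_injective (f := fun k => f (2 * k)) ?_).mono ?_
    · intro a b h
      have := hf h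
      omega
    · rintro _ ⟨k, rfl⟩
      exact ⟨⟨k, rfl⟩, hfS _⟩
  · refine (infinite_range_of_injective (f := fun k => f (2 * k + 1)) ?_).mono ?_
    · intro a b h
      have := hf h
      omega
    · rintro _ ⟨k, rfl⟩
      refine ⟨?_, hfS _⟩
      rintro ⟨j, hj⟩
      have := hf hj
      omega

/-- In an `ω`-cover each finite set is contained in infinitely many members. -/
theorem omega_infinite {X : Set ℝ} {𝒰 : Set (Set ℝ)} (h : ∀ U ∈ 𝒰, U ⊆ X) (hX : X ∉ 𝒰)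
    (hom : ∀ F : Set ℝ, F.Finite → F ⊆ X → ∃ U ∈ 𝒰, F ⊆ U) (F : Set ℝ) (hF : F.Finite)
    (hFX : F ⊆ X) : {U | U ∈ 𝒰 ∧ F ⊆ U}.Infinite := by
  intro hfin
  have hx : ∀ U : Set ℝ, ∃ x : ℝ, U ∈ 𝒰 → x ∈ X ∧ x ∉ U := by
    intro U
    by_cases hU : U ∈ 𝒰
    · have hne : U ≠ X := fun h => hX (h ▸ hU)
      obtain ⟨x, hxX, hxU⟩ := Set.exists_of_ssubset ((h U hU).ssubset_of_ne hne)
      exact ⟨x, fun _ => ⟨hxX, hxU⟩⟩
    · exact ⟨0, fun h => absurd h hU⟩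
  choose x hx using hx
  obtain ⟨U, hU, hFU⟩ := hom (F ∪ x '' {U | U ∈ 𝒰 ∧ F ⊆ U}) (hF.union (hfin.image x)) (by
    rintro y (hy | ⟨U, hU, rfl⟩)
    · exact hFX hy
    · exact (hx U hU.1).1)
  have hUF : U ∈ {U | U ∈ 𝒰 ∧ F ⊆ U} := ⟨hU, fun y hy => hFU (Or.inl hy)⟩
  exact (hx U hU).2 (hFU (Or.inr ⟨U, hUF, rfl⟩))

/-- Each `ω`-cover has a countable subfamily which is an `ω`-cover. -/
theorem exists_countable {X : Set ℝ} {𝒰 : Set (Set ℝ)} (h : IsOmegaCover X 𝒰) :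
    ∃ 𝒰₀ ⊆ 𝒰, 𝒰₀.Countable ∧ ∀ F : Set ℝ, F.Finite → F ⊆ X → ∃ U ∈ 𝒰₀, F ⊆ U := by
  obtain ⟨⟨hop, hun, hX⟩, hom⟩ := h
  let ℬ := TopologicalSpace.countableBasis ℝ
  have hℬ : TopologicalSpace.IsTopologicalBasis ℬ := TopologicalSpace.isBasis_countableBasis ℝ
  have : Countable ℬ := (TopologicalSpace.countable_countableBasis ℝ).to_subtype
  let C : Finset ℬ → Set ℝ := fun s => ⋃ b ∈ s, (b : Set ℝ)
  have hch : ∀ s : Finset ℬ, ∃ U : Set ℝ, (∃ V ∈ 𝒰, C s ∩ X ⊆ V) → U ∈ 𝒰 ∧ C s ∩ X ⊆ U := by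
    intro s
    by_cases hs : ∃ V ∈ 𝒰, C s ∩ X ⊆ V
    · obtain ⟨V, hV, hsV⟩ := hs
      exact ⟨V, fun _ => ⟨hV, hsV⟩⟩
    · exact ⟨∅, fun h => absurd h hs⟩
  choose u hu using hch
  refine ⟨u '' {s | ∃ V ∈ 𝒰, C s ∩ X ⊆ V}, ?_, (Set.to_countable _).image u, ?_⟩
  · rintro _ ⟨s, hs, rfl⟩
    exact (hu s hs).1
  · intro F hF hFX
    obtain ⟨U, hU, hFU⟩ := hom F hF hFX
    obtain ⟨O, hO, rfl⟩ := hop U hU
    have hb : ∀ x : ℝ, ∃ b : ℬ, x ∈ F → x ∈ (b : Set ℝ) ∧ (b : Set ℝ) ⊆ O := by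
      intro x
      by_cases hx : x ∈ F
      · obtain ⟨b, hb, hxb, hbO⟩ := hℬ.exists_subset_of_mem_open (hFU hx).1 hO
        exact ⟨⟨b, hb⟩, fun _ => ⟨hxb, hbO⟩⟩
      · obtain ⟨b, hb, -, -⟩ := hℬ.exists_subset_of_mem_open (Set.mem_univ x) isOpen_univ
        exact ⟨⟨b, hb⟩, fun h => absurd h hx⟩
    choose b hb using hb
    classical
    have hs : ∃ V ∈ 𝒰, C (hF.toFinset.image b) ∩ X ⊆ V := by
      refine ⟨_, hU, ?_⟩
      rintro y ⟨hy, hyX⟩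
      simp only [C, Set.mem_iUnion, Finset.mem_image, Set.Finite.mem_toFinset] at hy
      obtain ⟨_, ⟨x, hx, rfl⟩, hy⟩ := hy
      exact ⟨(hb x hx).2 hy, hyX⟩
    refine ⟨_, ⟨_, hs, rfl⟩, ?_⟩
    intro x hx
    apply (hu _ hs).2
    refine ⟨?_, hFX hx⟩
    simp only [C, Set.mem_iUnion, Finset.mem_image, Set.Finite.mem_toFinset]
    exact ⟨b x, ⟨x, hx, rfl⟩, (hb x hx).1⟩

theorem split_of_spl {X : Set ℝ} (h : Spl X) : Split X := by
  intro 𝒰 h𝒰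
  obtain ⟨𝒰₀, hsub, hcount, hom⟩ := exists_countable h𝒰
  obtain ⟨⟨hop, hun, hX⟩, -⟩ := h𝒰
  have hX₀ : X ∉ 𝒰₀ := fun h => hX (hsub h)
  have hUX : ∀ U ∈ 𝒰₀, U ⊆ X := by
    intro U hU
    obtain ⟨O, -, rfl⟩ := hop U (hsub hU)
    exact Set.inter_subset_right
  have hinf := omega_infinite hUX hX₀ hom
  have hinf₀ : 𝒰₀.Infinite := (hinf ∅ Set.finite_empty (Set.empty_subset _)).mono fun U hU => hU.1
  obtain ⟨hden⟩ := Set.countable_infinite_iff_nonempty_denumerable.1 ⟨hcount, hinf₀⟩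
  let e : ℕ ≃ 𝒰₀ := (Denumerable.eqv 𝒰₀).symm
  have he : Function.Injective fun n => (e n : Set ℝ) :=
    Subtype.val_injective.comp e.injective
  have hch : ∀ n, ∃ O : Set ℝ, IsOpen O ∧ (e n : Set ℝ) = O ∩ X := fun n =>
    hop _ (hsub (e n).2)
  choose O hO heO using hch
  obtain ⟨A, hA⟩ := h O hO (by
    intro F hF hFX
    refine Set.Infinite.of_image (fun n => (e n : Set ℝ)) ((hinf F hF hFX).mono ?_)
    rintro U ⟨hU, hFU⟩
    obtain ⟨n, hn⟩ := e.surjective ⟨U, hU⟩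
    have hn' : (e n : Set ℝ) = U := by rw [hn]
    refine ⟨n, ?_, hn'⟩
    intro x hx
    have : x ∈ (e n : Set ℝ) := hn' ▸ hFU hx
    rw [heO n] at this
    exact this.1)
  have hlarge : ∀ A' : Set ℕ, (∀ x ∈ X, {n | n ∈ A' ∧ x ∈ O n}.Infinite) →
      IsLargeCover X ((fun n => (e n : Set ℝ)) '' A') := by
    intro A' hA'
    have key : ∀ x ∈ X, {U | U ∈ (fun n => (e n : Set ℝ)) '' A' ∧ x ∈ U}.Infinite := by
      intro x hx
      refine ((hA' x hx).image he.injOn).mono ?_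
      rintro _ ⟨n, ⟨hn, hxn⟩, rfl⟩
      refine ⟨⟨n, hn, rfl⟩, ?_⟩
      change x ∈ (e n : Set ℝ)
      rw [heO n]
      exact ⟨hxn, hx⟩
    refine ⟨⟨?_, ?_, ?_⟩, key⟩
    · rintro _ ⟨n, -, rfl⟩
      exact ⟨O n, hO n, heO n⟩
    · apply Set.Subset.antisymm
      · rintro x ⟨_, ⟨n, -, rfl⟩, hx⟩
        exact hUX _ (e n).2 hx
      · intro x hx
        obtain ⟨U, hU, hxU⟩ := (key x hx).nonempty
        exact ⟨U, hU, hxU⟩
    · rintro ⟨n, -, hn⟩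
      exact hX₀ (hn ▸ (e n).2)
  refine ⟨(fun n => (e n : Set ℝ)) '' A, 𝒰 \ (fun n => (e n : Set ℝ)) '' A, ?_, ?_,
    ⟨_, Set.Subset.rfl, hlarge A fun x hx => (hA x hx).1⟩,
    ⟨(fun n => (e n : Set ℝ)) '' Aᶜ, ?_, hlarge Aᶜ fun x hx => (hA x hx).2⟩⟩
  · apply Set.union_sdiff_cancel
    rintro _ ⟨n, -, rfl⟩
    exact hsub (e n).2
  · exact Set.disjoint_sdiff_right
  · rintro _ ⟨n, hn, rfl⟩
    refine ⟨hsub (e n).2, ?_⟩
    rintro ⟨m, hm, hmn⟩
    exact hn (he hmn ▸ hm)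

theorem spl_of_split {X : Set ℝ} (h : Split X) : Spl X := by
  intro O hO hom
  by_cases hT : {n | X ⊆ O n}.Infinite
  · obtain ⟨A, hA, hA'⟩ := exists_split hT
    exact ⟨A, fun x hx => ⟨hA.mono fun n hn => ⟨hn.1, hn.2 hx⟩,
      hA'.mono fun n hn => ⟨hn.1, hn.2 hx⟩⟩⟩
  · rw [Set.not_infinite] at hT
    have hom' : ∀ F : Set ℝ, F.Finite → F ⊆ X → ∃ n, ¬ X ⊆ O n ∧ F ⊆ O n := by
      intro F hF hFX
      obtain ⟨n, hn, hn'⟩ := (hom F hF hFX).exists_notMem_finite hT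
      exact ⟨n, hn', hn⟩
    obtain ⟨𝒱, 𝒲, hU, hdisj, ⟨𝒱', hV', hV''⟩, ⟨𝒲', hW', hW''⟩⟩ :=
      h {U | ∃ n, ¬ X ⊆ O n ∧ U = O n ∩ X} (by
        refine ⟨⟨?_, ?_, ?_⟩, ?_⟩
        · rintro _ ⟨n, -, rfl⟩
          exact ⟨O n, hO n, rfl⟩
        · apply Set.Subset.antisymm
          · rintro x ⟨_, ⟨n, -, rfl⟩, hx⟩
            exact hx.2
          · intro x hx
            obtain ⟨n, hn, hxn⟩ := hom' {x} (Set.finite_singleton x) (by simpa using hx)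
            exact ⟨_, ⟨n, hn, rfl⟩, hxn rfl, hx⟩
        · rintro ⟨n, hn, hX⟩
          exact hn (hX.le.trans Set.inter_subset_left)
        · intro F hF hFX
          obtain ⟨n, hn, hFn⟩ := hom' F hF hFX
          exact ⟨_, ⟨n, hn, rfl⟩, Set.subset_inter hFn hFX⟩)
    refine ⟨{n | O n ∩ X ∈ 𝒱}, fun x hx => ⟨?_, ?_⟩⟩
    · refine Set.Infinite.of_image (fun n => O n ∩ X) ((hV''.2 x hx).mono ?_)
      rintro U ⟨hU', hxU⟩
      have : U ∈ 𝒱 ∪ 𝒲 := Or.inl (hV' hU')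
      rw [hU] at this
      obtain ⟨n, -, rfl⟩ := this
      exact ⟨n, ⟨hV' hU', hxU.1⟩, rfl⟩
    · refine Set.Infinite.of_image (fun n => O n ∩ X) ((hW''.2 x hx).mono ?_)
      rintro U ⟨hU', hxU⟩
      have : U ∈ 𝒱 ∪ 𝒲 := Or.inr (hW' hU')
      rw [hU] at this
      obtain ⟨n, -, rfl⟩ := this
      exact ⟨n, ⟨fun hn => Set.disjoint_left.1 hdisj hn (hW' hU'), hxU.1⟩, rfl⟩

/-! ### Countable additivity -/

/-- The sets `O n`, `n ∈ C`, form an `ω`-cover of `X` (in the combinatorial sense). -/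
def Good (X : Set ℝ) (O : ℕ → Set ℝ) (C : Set ℕ) : Prop :=
  ∀ F : Set ℝ, F.Finite → F ⊆ X → {n | n ∈ C ∧ F ⊆ O n}.Infinite

theorem step {X Y : Set ℝ} (hYX : Y ⊆ X) (hY : Spl Y) {O : ℕ → Set ℝ} (hO : ∀ n, IsOpen (O n))
    {C : Set ℕ} (hC : Good X O C) :
    ∃ C' ⊆ C, Good X O C' ∧ ∀ y ∈ Y, {n | n ∈ C \ C' ∧ y ∈ O n}.Infinite := by
  classical
  obtain ⟨A, hA⟩ := hY (fun n => if n ∈ C then O n else ∅) (by
      intro n
      split_ifs
      · exact hO n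
      · exact isOpen_empty) (by
      intro F hF hFY
      refine (hC F hF (hFY.trans hYX)).mono ?_
      rintro n ⟨hn, hFn⟩
      simpa [hn] using hFn)
  have hA₁ : ∀ y ∈ Y, {n | n ∈ C ∩ A ∧ y ∈ O n}.Infinite := by
    intro y hy
    refine (hA y hy).1.mono ?_
    rintro n ⟨hn, hyn⟩
    by_cases hnC : n ∈ C
    · simp only [hnC, if_true] at hyn
      exact ⟨⟨hnC, hn⟩, hyn⟩
    · simp [hnC] at hyn
  have hA₂ : ∀ y ∈ Y, {n | n ∈ C \ A ∧ y ∈ O n}.Infinite := by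
    intro y hy
    refine (hA y hy).2.mono ?_
    rintro n ⟨hn, hyn⟩
    by_cases hnC : n ∈ C
    · simp only [hnC, if_true] at hyn
      exact ⟨⟨hnC, hn⟩, hyn⟩
    · simp [hnC] at hyn
  by_cases h₁ : Good X O (C ∩ A)
  · refine ⟨C ∩ A, Set.inter_subset_left, h₁, fun y hy => (hA₂ y hy).mono ?_⟩
    rintro n ⟨⟨hnC, hnA⟩, hyn⟩
    exact ⟨⟨hnC, fun h => hnA h.2⟩, hyn⟩
  by_cases h₂ : Good X O (C \ A)
  · refine ⟨C \ A, Set.sdiff_subset, h₂, fun y hy => (hA₁ y hy).mono ?_⟩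
    rintro n ⟨⟨hnC, hnA⟩, hyn⟩
    exact ⟨⟨hnC, fun h => h.2 hnA⟩, hyn⟩
  exfalso
  unfold Good at h₁ h₂
  push Not at h₁ h₂
  obtain ⟨F₁, hF₁, hF₁X, h₁⟩ := h₁
  obtain ⟨F₂, hF₂, hF₂X, h₂⟩ := h₂
  refine hC (F₁ ∪ F₂) (hF₁.union hF₂) (Set.union_subset hF₁X hF₂X)
    ((h₁.union h₂).subset ?_)
  rintro n ⟨hn, hFn⟩
  by_cases hnA : n ∈ A
  · exact Or.inl ⟨⟨hn, hnA⟩, Set.subset_union_left.trans hFn⟩
  · exact Or.inr ⟨⟨hn, hnA⟩, Set.subset_union_right.trans hFn⟩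

theorem spl_iUnion (X : ℕ → Set ℝ) (h : ∀ n, Spl (X n)) : Spl (⋃ n, X n) := by
  intro O hO hom
  have hst : ∀ (n : ℕ) (C : {C : Set ℕ // Good (⋃ n, X n) O C}),
      ∃ C' : {C : Set ℕ // Good (⋃ n, X n) O C}, (C' : Set ℕ) ⊆ C ∧
        ∀ y ∈ X n, {m | m ∈ (C : Set ℕ) \ C' ∧ y ∈ O m}.Infinite := by
    intro n C
    obtain ⟨C', hC', hg, hi⟩ := step (Set.subset_iUnion X n) (h n) hO C.2
    exact ⟨⟨C', hg⟩, hC', hi⟩
  choose next hnext using hst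
  let c : ℕ → {C : Set ℕ // Good (⋃ n, X n) O C} := fun n =>
    Nat.rec ⟨Set.univ, by
      intro F hF hFX
      simpa using hom F hF hFX⟩ (fun k C => next (k / 2) C) n
  have hc : ∀ n, c (n + 1) = next (n / 2) (c n) := fun n => rfl
  have hanti : Antitone fun n => (c n).1 := by
    apply antitone_nat_of_succ_le
    intro n
    rw [hc]
    exact (hnext (n / 2) (c n)).1
  have hD : ∀ k, ∀ y ∈ X (k / 2), {m | m ∈ (c k).1 \ (c (k + 1)).1 ∧ y ∈ O m}.Infinite := by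
    intro k y hy
    rw [hc]
    exact (hnext (k / 2) (c k)).2 y hy
  refine ⟨⋃ k, (c (2 * k)).1 \ (c (2 * k + 1)).1, ?_⟩
  intro x hx
  obtain ⟨k, hk⟩ := Set.mem_iUnion.1 hx
  constructor
  · refine (hD (2 * k) x (by simpa using hk)).mono ?_
    rintro m ⟨hm, hxm⟩
    exact ⟨Set.mem_iUnion.2 ⟨k, hm⟩, hxm⟩
  · refine (hD (2 * k + 1) x (by
      have : (2 * k + 1) / 2 = k := by omega
      rw [this]; exact hk)).mono ?_
    rintro m ⟨hm, hxm⟩
    refine ⟨?_, hxm⟩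
    intro hm'
    obtain ⟨j, hj⟩ := Set.mem_iUnion.1 hm'
    rcases lt_trichotomy (2 * j) (2 * k + 1) with hlt | heq | hgt
    · exact hj.2 (hanti (by omega : 2 * j + 1 ≤ 2 * k + 1) hm.1)
    · omega
    · exact hm.2 (hanti (by omega : 2 * k + 1 + 1 ≤ 2 * j) hj.1)

theorem spl_countable {X : Set ℝ} (hX : X.Countable) : Spl X := by
  rcases X.eq_empty_or_nonempty with rfl | hne
  · intro O _ _
    exact ⟨∅, fun x hx => absurd hx (Set.notMem_empty x)⟩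
  · obtain ⟨f, rfl⟩ := hX.exists_eq_range hne
    rw [← Set.iUnion_singleton_eq_range]
    apply spl_iUnion
    intro n O _ hom
    have := hom {f n} (Set.finite_singleton _) Set.Subset.rfl
    simp only [Set.singleton_subset_iff] at this
    obtain ⟨A, hA, hA'⟩ := exists_split this
    refine ⟨A, ?_⟩
    rintro x rfl
    exact ⟨hA, hA'⟩

/-! ### Sets of cardinality less than `𝔲` -/

theorem spl_of_lt {X : Set ℝ} (hX : #X < ultraNumber) : Spl X := by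
  by_cases hc : X.Countable
  · exact spl_countable hc
  intro O hO hom
  by_contra hcon
  push Not at hcon
  let a : ℝ → Set ℕ := fun x => {n | x ∈ O n}
  have hdec : ∀ A : Set ℕ, ∃ x ∈ X, (a x ∩ A).Finite ∨ (a x \ A).Finite := by
    intro A
    obtain ⟨x, hx, hxA⟩ := hcon A
    refine ⟨x, hx, ?_⟩
    by_cases h : {n | n ∈ A ∧ x ∈ O n}.Infinite
    · right
      have := hxA h
      refine this.subset ?_
      rintro n ⟨hn, hnA⟩
      exact ⟨hnA, hn⟩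
    · left
      rw [Set.not_infinite] at h
      refine h.subset ?_
      rintro n ⟨hn, hnA⟩
      exact ⟨hnA, hn⟩
  have hne : X.Nonempty := by
    by_contra h
    rw [Set.not_nonempty_iff_eq_empty] at h
    exact hc (h ▸ Set.countable_empty)
  have hpair : ∀ x ∈ X, ∀ y ∈ X, (a x ∩ a y).Infinite := by
    intro x hx y hy
    refine (hom {x, y} (by simp) (by
      rintro z (rfl | rfl)
      · exact hx
      · exact hy)).mono ?_
    intro n hn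
    exact ⟨hn (by simp), hn (by simp)⟩
  have htriple : ∀ x ∈ X, ∀ y ∈ X, ∀ z ∈ X, (a x ∩ a y ∩ a z).Infinite := by
    intro x hx y hy z hz
    refine (hom {x, y, z} (by simp) (by
      rintro w (rfl | rfl | rfl)
      · exact hx
      · exact hy
      · exact hz)).mono ?_
    intro n hn
    exact ⟨⟨hn (by simp), hn (by simp)⟩, hn (by simp)⟩
  let 𝓕 : Filter ℕ :=
    { sets := {A | ∃ x ∈ X, (a x \ A).Finite}
      univ_sets := by
        obtain ⟨x, hx⟩ := hne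
        exact ⟨x, hx, by simp⟩
      sets_of_superset := by
        rintro A B ⟨x, hx, hA⟩ hAB
        exact ⟨x, hx, hA.subset (Set.sdiff_subset_sdiff_right hAB)⟩
      inter_sets := by
        rintro A B ⟨x, hx, hA⟩ ⟨y, hy, hB⟩
        obtain ⟨z, hz, h | h⟩ := hdec (A ∩ B)
        · exfalso
          refine htriple x hx y hy z hz (((hA.union hB).union h).subset ?_)
          rintro n ⟨⟨h1, h2⟩, h3⟩
          by_cases hnA : n ∈ A
          · by_cases hnB : n ∈ B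
            · exact Or.inr ⟨h3, hnA, hnB⟩
            · exact Or.inl (Or.inr ⟨h2, hnB⟩)
          · exact Or.inl (Or.inl ⟨h1, hnA⟩)
        · exact ⟨z, hz, h⟩ }
  have hmem : ∀ A : Set ℕ, A ∈ 𝓕 ↔ ∃ x ∈ X, (a x \ A).Finite := fun A => Iff.rfl
  let U : Ultrafilter ℕ := Ultrafilter.ofComplNotMemIff 𝓕 (by
    intro A
    constructor
    · intro h
      obtain ⟨x, hx, h' | h'⟩ := hdec A
      · exfalso
        apply h
        rw [hmem]
        refine ⟨x, hx, h'.subset ?_⟩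
        rintro n ⟨hn, hnA⟩
        exact ⟨hn, not_not.1 hnA⟩
      · exact (hmem A).2 ⟨x, hx, h'⟩
    · intro hA hA'
      obtain ⟨x, hx, hA⟩ := (hmem A).1 hA
      obtain ⟨y, hy, hA'⟩ := (hmem _).1 hA'
      refine hpair x hx y hy ((hA.union hA').subset ?_)
      rintro n ⟨h1, h2⟩
      by_cases hnA : n ∈ A
      · exact Or.inr ⟨h2, fun h => h hnA⟩
      · exact Or.inl ⟨h1, hnA⟩)
  have hmemU : ∀ A : Set ℕ, A ∈ U ↔ ∃ x ∈ X, (a x \ A).Finite := fun A => Iff.rfl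
  have hnp : ∀ n : ℕ, {n} ∉ U := by
    intro n hn
    obtain ⟨x, hx, h⟩ := (hmemU _).1 hn
    refine hpair x hx x hx ((h.union (Set.finite_singleton n)).subset ?_)
    rintro m ⟨hm, -⟩
    by_cases hmn : m = n
    · exact Or.inr hmn
    · exact Or.inl ⟨hm, hmn⟩
  have hle : ultraNumber ≤ #X := by
    have h1 : ultraNumber ≤ #(Set.range fun p : X × ℕ => a p.1 \ Set.Iio p.2) := by
      refine csInf_le' ⟨U, _, hnp, ⟨?_, ?_⟩, rfl⟩
      · rintro _ ⟨p, rfl⟩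
        refine (hmemU _).2 ⟨p.1, p.1.2, (Set.finite_Iio p.2).subset ?_⟩
        rintro n ⟨hn, hn'⟩
        by_contra h
        exact hn' ⟨hn, h⟩
      · intro A hA
        obtain ⟨x, hx, h⟩ := (hmemU A).1 hA
        obtain ⟨k, hk⟩ := h.bddAbove
        refine ⟨_, ⟨(⟨x, hx⟩, k + 1), rfl⟩, ?_⟩
        rintro n ⟨hn, hnk⟩
        by_contra hnA
        have : n ≤ k := hk ⟨hn, hnA⟩
        exact hnk (Set.mem_Iio.2 (Nat.lt_succ_of_le this))
    refine h1.trans (Cardinal.mk_range_le.trans ?_)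
    have h2 : ℵ₀ ≤ #X := by
      rw [← not_lt]
      intro h
      exact hc ((Cardinal.le_aleph0_iff_set_countable).1 h.le)
    rw [Cardinal.mk_prod, Cardinal.lift_id, Cardinal.lift_id, Cardinal.mk_nat]
    exact (Cardinal.mul_le_max_of_aleph0_le_left h2).trans (max_le le_rfl h2)
  exact absurd hX (not_lt.2 hle)

/-! ### A base of an ultrafilter as a set of reals -/

theorem exists_cantor : ∃ φ : (ℕ → Bool) → ℝ, Continuous φ ∧ Function.Injective φ := by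
  obtain ⟨f, -, h1, h2⟩ := Perfect.exists_nat_bool_injection
    (PerfectSpace.univ_perfect ℝ) Set.univ_nonempty
  exact ⟨f, h1, h2⟩

theorem ultraNumber_mem : ∃ (U : Ultrafilter ℕ) (B : Set (Set ℕ)), (∀ n : ℕ, {n} ∉ U) ∧
    IsBase U B ∧ #B = ultraNumber := by
  have hne : {κ : Cardinal.{0} | ∃ (U : Ultrafilter ℕ) (B : Set (Set ℕ)), (∀ n : ℕ, {n} ∉ U) ∧
      IsBase U B ∧ #B = κ}.Nonempty :=
    ⟨_, Filter.hyperfilter ℕ, {A | A ∈ Filter.hyperfilter ℕ},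
      fun n => (Set.finite_singleton n).notMem_hyperfilter,
      ⟨fun b hb => hb, fun A hA => ⟨A, hA, Set.Subset.rfl⟩⟩, rfl⟩
  exact csInf_mem hne

theorem not_spl_of_base {U : Ultrafilter ℕ} {B : Set (Set ℕ)} (hU : ∀ n : ℕ, {n} ∉ U)
    (hB : IsBase U B) {φ : (ℕ → Bool) → ℝ} (hφ : Continuous φ) (hφ' : Function.Injective φ)
    {p : Set ℕ → ℝ} (hp : ∀ b, ∃ c : ℕ → Bool, p b = φ c ∧ ∀ n, c n = true ↔ n ∈ b) :
    ¬ Spl (p '' B) := by
  intro h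
  have hpO : ∀ b n, p b ∈ (φ '' {c | c n = false})ᶜ ↔ n ∈ b := by
    intro b n
    obtain ⟨c, hc, hcb⟩ := hp b
    rw [Set.mem_compl_iff, hc, hφ'.mem_set_image, ← hcb]
    simp
  have hfinU : ∀ S : Set ℕ, S.Finite → S ∉ U := by
    intro S hS hSU
    have : ∃ n ∈ S, ({n} : Set ℕ) ∈ U := by
      have := (Ultrafilter.finite_biUnion_mem_iff hS (s := fun n => ({n} : Set ℕ)) (f := U)).1
        (by simpa using hSU)
      exact this
    obtain ⟨n, -, hn⟩ := this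
    exact hU n hn
  obtain ⟨A, hA⟩ := h (fun n => (φ '' {c | c n = false})ᶜ) (by
      intro n
      have hcl : IsClosed {c : ℕ → Bool | c n = false} :=
        isClosed_eq (continuous_apply n) continuous_const
      exact (hcl.isCompact.image hφ).isClosed.isOpen_compl) (by
      intro F hF hFX
      have : (⋂ x ∈ F, {n | x ∈ (φ '' {c | c n = false})ᶜ}) ∈ U := by
        rw [← Ultrafilter.mem_coe, Filter.biInter_mem hF]
        intro x hx
        obtain ⟨b, hb, rfl⟩ := hFX hx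
        have hbU := hB.1 b hb
        refine Filter.mem_of_superset hbU ?_
        intro n hn
        exact (hpO b n).2 hn
      intro hfin
      refine hfinU _ (hfin.subset ?_) this
      intro n hn x hx
      exact Set.mem_iInter₂.1 hn x hx)
  rcases Ultrafilter.mem_or_compl_mem U A with hAU | hAU
  · obtain ⟨b, hb, hbA⟩ := hB.2 A hAU
    refine (hA (p b) ⟨b, hb, rfl⟩).2 (Set.finite_empty.subset ?_)
    rintro n ⟨hnA, hn⟩
    exact hnA (hbA ((hpO b n).1 hn))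
  · obtain ⟨b, hb, hbA⟩ := hB.2 _ hAU
    refine (hA (p b) ⟨b, hb, rfl⟩).1 (Set.finite_empty.subset ?_)
    rintro n ⟨hnA, hn⟩
    exact hbA ((hpO b n).1 hn) hnA

theorem exists_p : ∃ (φ : (ℕ → Bool) → ℝ) (p : Set ℕ → ℝ), Continuous φ ∧ Function.Injective φ ∧
    ∀ b, ∃ c : ℕ → Bool, p b = φ c ∧ ∀ n, c n = true ↔ n ∈ b := by
  classical
  obtain ⟨φ, h1, h2⟩ := exists_cantor
  exact ⟨φ, fun b => φ fun n => decide (n ∈ b), h1, h2, fun b => ⟨_, rfl, fun n => by simp⟩⟩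

theorem main : ∃ F : Set (Set ℝ), #F ≤ ultraNumber.ord.cof ∧
    (∀ X ∈ F, #X < ultraNumber ∧ Split X) ∧ ¬ Split (⋃₀ F) := by
  obtain ⟨U, B, hU, hB, hcard⟩ := ultraNumber_mem
  obtain ⟨φ, p, hφ, hφ', hp⟩ := exists_p
  have hns := not_spl_of_base hU hB hφ hφ' hp
  have hBc : ¬ B.Countable := fun h => hns (spl_countable (h.image p))
  have hinf : ℵ₀ ≤ ultraNumber := by
    rw [← hcard, ← not_lt]
    intro h
    exact hBc ((Cardinal.le_aleph0_iff_set_countable).1 h.le)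
  let W : Type := ultraNumber.ord.ToType
  have hW : #W = #B := by rw [hcard]; simp [W]
  obtain ⟨e⟩ := Cardinal.eq.1 hW
  obtain ⟨T, hT, hTc⟩ := Order.exists_cof_eq (α := W)
  let piece : W → Set ℝ := fun t => (fun w => p (e w)) '' Set.Iic t
  have hpc : ∀ t, #(piece t) < ultraNumber := by
    intro t
    refine Cardinal.mk_image_le.trans_lt ?_
    rw [← Set.Iio_insert]
    refine (Cardinal.mk_insert_le).trans_lt ?_
    exact Cardinal.add_lt_of_lt hinf (Cardinal.mk_Iio_toType_ord_lt t)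
      (one_lt_aleph0.trans_le hinf)
  have hun : ⋃₀ (piece '' T) = p '' B := by
    apply Set.Subset.antisymm
    · rintro x ⟨_, ⟨t, -, rfl⟩, ⟨w, -, rfl⟩⟩
      exact ⟨_, (e w).2, rfl⟩
    · rintro _ ⟨b, hb, rfl⟩
      obtain ⟨t, ht, hwt⟩ := hT (e.symm ⟨b, hb⟩)
      exact ⟨_, ⟨t, ht, rfl⟩, ⟨e.symm ⟨b, hb⟩, hwt, by simp⟩⟩
  refine ⟨piece '' T, ?_, ?_, ?_⟩
  · refine Cardinal.mk_image_le.trans ?_
    rw [hTc, Ordinal.cof_toType]
  · rintro _ ⟨t, -, rfl⟩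
    exact ⟨hpc t, split_of_spl (spl_of_lt (hpc t))⟩
  · intro h
    rw [hun] at h
    exact hns (spl_of_split h)

theorem ultraNumber_le : ultraNumber ≤ 𝔠 := by
  obtain ⟨U, B, -, -, h⟩ := ultraNumber_mem
  rw [← h]
  calc #B ≤ #(Set ℕ) := Cardinal.mk_set_le B
    _ = 𝔠 := by simp

theorem aleph_one_le : ℵ₁ ≤ addSplit := by
  have hne : {κ : Cardinal.{0} | ∃ F : Set (Set ℝ), #F = κ ∧ (∀ X ∈ F, Split X) ∧
      ¬ Split (⋃₀ F)}.Nonempty := by
    obtain ⟨F, -, h, h'⟩ := main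
    exact ⟨_, F, rfl, fun X hX => (h X hX).2, h'⟩
  obtain ⟨F, hF, hS, hns⟩ := csInf_mem hne
  change #F = addSplit at hF
  rw [← hF, ← succ_aleph0, Order.succ_le_iff, ← not_le]
  intro hc
  rw [Cardinal.le_aleph0_iff_set_countable] at hc
  apply hns
  apply split_of_spl
  rcases F.eq_empty_or_nonempty with rfl | hne
  · rw [Set.sUnion_empty]
    exact spl_countable Set.countable_empty
  · obtain ⟨f, rfl⟩ := hc.exists_eq_range hne
    rw [Set.sUnion_range]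
    exact spl_iUnion f fun n => spl_of_split (hS _ ⟨n, rfl⟩)

/-- The additivity number of `Split(Ω,Λ)` is at most the cofinality of the ultrafilter number:
`ℵ₁ ≤ add(Split(Ω,Λ)) ≤ cf(𝔲) ≤ 𝔲 ≤ 𝔠`. In fact there are `cf(𝔲)` sets of reals of cardinality
less than `𝔲`, which (as all such sets) satisfy `Split(Ω,Λ)`, and whose union does not. -/
theorem result :
    (ℵ₁ ≤ addSplit ∧ addSplit ≤ ultraNumber.ord.cof ∧ ultraNumber.ord.cof ≤ ultraNumber ∧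
      ultraNumber ≤ 𝔠) ∧
    (∃ F : Set (Set ℝ), #F ≤ ultraNumber.ord.cof ∧ (∀ X ∈ F, #X < ultraNumber ∧ Split X) ∧
      ¬ Split (⋃₀ F)) ∧
    ∀ X : Set ℝ, #X < ultraNumber → Split X := by
  refine ⟨⟨aleph_one_le, ?_, Ordinal.cof_ord_le _, ultraNumber_le⟩, main,
    fun X hX => split_of_spl (spl_of_lt hX)⟩
  obtain ⟨F, hF, h, h'⟩ := main
  refine le_trans (csInf_le' ⟨F, rfl, fun X hX => (h X hX).2, h'⟩) hF

end Pool.Agent.Results.MP_312f56_gt.AddAtMostCofU
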